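import Mathlib
import Pool.Agent.Helper46_SS.Main

/-!
# Many integers of a short interval have a large prime factor

For every `α > 1`, as `k → ∞` and uniformly in `n ≥ k ^ (α - o(1))`, at least
`(1 - 4 / (8 α - 3 - √(16 α - 15)) - o(1)) k` of the integers `n + 1, …, n + k` have a prime factor
above `k`.
-/

set_option autoImplicit false

open Finset

namespace Pool.Agent.Results.MP_9a8698_nt.NonSmoothLower

open Pool.Agent.Helper46_SS

/-- few primes -/
lemma prime_few (η : ℝ) (hη : 0 < η) : ∃ K : ℕ, ∀ k : ℕ, K ≤ k → ((PP k).card : ℝ) ≤ η * k := by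
  have h1 : ∀ k : ℕ, 2 ≤ k → ((PP k).card : ℝ) ≤
      Real.log 4 * k / Real.log (Real.sqrt k) + Real.sqrt k := by
    intro k hk
    have h := Chebyshev.pi_le_log4_mul_div (x := (k : ℝ)) (by exact_mod_cast hk)
    refine le_trans (le_of_eq ?_) h
    rw [Nat.floor_natCast]
    unfold PP
    rw [Nat.primeCounting, Nat.primeCounting', Nat.count_eq_card_filter_range]
    congr 2
    ext p
    simp only [mem_filter, mem_Icc, mem_range]
    constructor
    · rintro ⟨⟨_, h⟩, hp⟩
      exact ⟨by omega, hp⟩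
    · rintro ⟨h, hp⟩
      exact ⟨⟨hp.one_lt.le, by omega⟩, hp⟩
  have h2 : Filter.Tendsto (fun k : ℕ => Real.log 4 / Real.log (Real.sqrt k) +
      1 / Real.sqrt k) Filter.atTop (nhds (0 + 0)) := by
    have hs : Filter.Tendsto (fun k : ℕ => Real.sqrt (k : ℝ)) Filter.atTop Filter.atTop :=
      Real.tendsto_sqrt_atTop.comp tendsto_natCast_atTop_atTop
    apply Filter.Tendsto.add
    · exact Filter.Tendsto.const_div_atTop (Real.tendsto_log_atTop.comp hs) _
    · exact Filter.Tendsto.const_div_atTop hs _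
  rw [add_zero] at h2
  have h3 := (h2.eventually (gt_mem_nhds hη)).and (Filter.eventually_ge_atTop 2)
  obtain ⟨K, hK⟩ := Filter.eventually_atTop.1 h3
  refine ⟨K, fun k hk => ?_⟩
  obtain ⟨h4, h5⟩ := hK k hk
  have hk0 : (0 : ℝ) < k := by
    have : 0 < k := by omega
    exact_mod_cast this
  have hsk : 0 < Real.sqrt k := Real.sqrt_pos.2 hk0
  refine le_trans (h1 k h5) ?_
  have e : Real.log 4 * k / Real.log (Real.sqrt k) + Real.sqrt k =
      (Real.log 4 / Real.log (Real.sqrt k) + 1 / Real.sqrt k) * k := by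
    have : Real.sqrt k = 1 / Real.sqrt k * k := by
      rw [div_mul_eq_mul_div, one_mul, eq_div_iff hsk.ne', Real.mul_self_sqrt hk0.le]
    rw [add_mul, ← this]
    ring
  rw [e]
  exact mul_le_mul_of_nonneg_right h4.le hk0.le

/-- the algebra of the extremal density -/
lemma density (α δ σ τ : ℝ) (hα : 1 < α) (hσ0 : 0 ≤ σ) (hσ1 : σ ≤ 1) (hτ : 0 ≤ τ) (hδ : 0 ≤ δ)
    (h : (α - δ) * σ ≤ 1 / 2 + σ / 2 + Real.sqrt (σ * (1 - σ) / 8) + τ) :
    σ ≤ 4 / (8 * α - 3 - Real.sqrt (16 * α - 15)) + 2 * τ + 2 * δ := by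
  set w := Real.sqrt (16 * α - 15) with hw
  have hw2 : w ^ 2 = 16 * α - 15 := Real.sq_sqrt (by linarith)
  have hw1 : 1 ≤ w := by rw [hw, Real.one_le_sqrt]; linarith
  have hα2 : α = (w ^ 2 + 15) / 16 := by linarith
  have hx : 4 / (8 * α - 3 - w) = 8 / (w ^ 2 - 2 * w + 9) := by
    rw [div_eq_div_iff (by nlinarith) (by nlinarith)]
    rw [hα2]; ring
  rw [hx]
  have hden : 0 < w ^ 2 - 2 * w + 9 := by nlinarith
  have hden8 : 8 ≤ w ^ 2 - 2 * w + 9 := by nlinarith [sq_nonneg (w - 1)]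
  have hs1 : 8 / (w ^ 2 - 2 * w + 9) ≤ 1 := by rw [div_le_one hden]; exact hden8
  by_cases hc : σ * (w ^ 2 - 2 * w + 9) < 8
  · have : σ ≤ 8 / (w ^ 2 - 2 * w + 9) := by rw [le_div_iff₀ hden]; exact hc.le
    linarith
  · push Not at hc
    have hsq : Real.sqrt (σ * (1 - σ) / 8) ≤ σ * (w - 1) / 8 := by
      apply Real.sqrt_le_iff.2
      refine ⟨by have := mul_nonneg hσ0 (show (0:ℝ) ≤ w - 1 by linarith); linarith, ?_⟩
      have h1 : 8 * (1 - σ) ≤ σ * (w - 1) ^ 2 := by nlinarith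
      have h2 := mul_le_mul_of_nonneg_left h1 hσ0
      nlinarith
    have h3 : σ * (w ^ 2 - 2 * w + 9) / 16 ≤ 1 / 2 + τ + δ := by
      have h4 : α * σ - σ / 2 - σ * (w - 1) / 8 = σ * (w ^ 2 - 2 * w + 9) / 16 := by
        rw [hα2]; ring
      have h5 : δ * σ ≤ δ := by nlinarith
      rw [← h4]
      nlinarith
    have h6 : σ ≤ (8 + 16 * τ + 16 * δ) / (w ^ 2 - 2 * w + 9) := by
      rw [le_div_iff₀ hden]; linarith
    have h7 : (8 + 16 * τ + 16 * δ) / (w ^ 2 - 2 * w + 9) =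
        8 / (w ^ 2 - 2 * w + 9) + 8 / (w ^ 2 - 2 * w + 9) * (2 * τ + 2 * δ) := by
      field_simp
      ring
    rw [h7] at h6
    have h8 : 8 / (w ^ 2 - 2 * w + 9) * (2 * τ + 2 * δ) ≤ 1 * (2 * τ + 2 * δ) :=
      mul_le_mul_of_nonneg_right hs1 (by positivity)
    linarith

theorem result :
    ∀ α : ℝ, 1 < α → ∀ ε : ℝ, 0 < ε →
      ∃ δ : ℝ, 0 < δ ∧ ∃ K : ℕ, ∀ k n : ℕ, K ≤ k → (k : ℝ) ^ (α - δ) ≤ (n : ℝ) →
        1 - 4 / (8 * α - 3 - Real.sqrt (16 * α - 15)) - ε ≤
          (((Finset.Icc 1 k).filter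
            (fun i => ∃ p ∈ (n + i).primeFactors, k < p)).card : ℝ) / (k : ℝ) := by
  intro α hα ε hε
  obtain ⟨D, hD0, hD⟩ := main_ineq
  obtain ⟨K₁, hK₁⟩ := prime_few (ε / 4) (by positivity)
  have h2 : Filter.Tendsto (fun k : ℕ => D / Real.sqrt (Real.log k)) Filter.atTop (nhds 0) := by
    apply Filter.Tendsto.const_div_atTop
    exact Real.tendsto_sqrt_atTop.comp
      (Real.tendsto_log_atTop.comp tendsto_natCast_atTop_atTop)
  obtain ⟨K₂, hK₂⟩ := Filter.eventually_atTop.1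
    (h2.eventually (gt_mem_nhds (show (0:ℝ) < ε / 8 by positivity)))
  refine ⟨ε / 8, by positivity, max 3 (max K₁ K₂), ?_⟩
  intro k n hk hn
  have hk3 : 3 ≤ k := le_trans (le_max_left _ _) hk
  have hk1 : K₁ ≤ k := le_trans (le_trans (le_max_left _ _) (le_max_right _ _)) hk
  have hk2 : K₂ ≤ k := le_trans (le_trans (le_max_right _ _) (le_max_right _ _)) hk
  have hk0 : (0 : ℝ) < k := by
    have : 0 < k := by omega
    exact_mod_cast this
  have h3 := hD k n (α - ε / 8) hk3 hn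
  have h4 := hK₁ k hk1
  have h5 := hK₂ k hk2
  set σ : ℝ := ((MM n k).card / k : ℝ) with hσ
  have hσ0 : 0 ≤ σ := by positivity
  have hσ1 : σ ≤ 1 := by
    rw [hσ, div_le_one hk0]
    exact_mod_cast MM_card_le n k
  have h6 := density α (ε / 8) σ (D / Real.sqrt (Real.log k)) hα hσ0 hσ1 (by positivity)
    (by positivity) h3
  -- the complement
  have h7 : k ≤ ((Icc 1 k).filter (fun i => ∃ p ∈ (n + i).primeFactors, k < p)).card +
      (MM n k).card + (PP k).card := by
    have e1 : (Icc 1 k).card = k := by simp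
    have e2 : Icc 1 k ⊆ ((Icc 1 k).filter (fun i => ∃ p ∈ (n + i).primeFactors, k < p)) ∪
        (MM n k) ∪ (EE n k) := by
      intro i hi
      by_cases hE : i ∈ EE n k
      · exact mem_union_right _ hE
      · apply mem_union_left
        by_cases hp : ∃ p ∈ (n + i).primeFactors, k < p
        · exact mem_union_left _ (mem_filter.2 ⟨hi, hp⟩)
        · apply mem_union_right
          unfold MM
          rw [mem_filter]
          push Not at hp
          exact ⟨hi, hp, hE⟩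
    have e3 := card_le_card e2
    have e4 := card_union_le (((Icc 1 k).filter (fun i => ∃ p ∈ (n + i).primeFactors, k < p)) ∪
        (MM n k)) (EE n k)
    have e5 := card_union_le ((Icc 1 k).filter (fun i => ∃ p ∈ (n + i).primeFactors, k < p))
        (MM n k)
    have e6 := EE_card n k
    omega
  have h8 : (k : ℝ) ≤ (((Icc 1 k).filter (fun i => ∃ p ∈ (n + i).primeFactors, k < p)).card : ℝ) +
      (MM n k).card + (PP k).card := by exact_mod_cast h7
  have hMσ : ((MM n k).card : ℝ) = σ * k := by rw [hσ]; field_simp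
  rw [le_div_iff₀ hk0]
  rw [hMσ] at h8
  have h9 := mul_le_mul_of_nonneg_right h6 hk0.le
  have h10 : 2 * (D / Real.sqrt (Real.log k)) * k ≤ ε / 4 * k :=
    mul_le_mul_of_nonneg_right (by linarith) hk0.le
  generalize 4 / (8 * α - 3 - Real.sqrt (16 * α - 15)) = s at *
  generalize D / Real.sqrt (Real.log k) = t at *
  generalize (((Icc 1 k).filter (fun i => ∃ p ∈ (n + i).primeFactors, k < p)).card : ℝ) = F at *
  nlinarith only [h8, h9, h10, h4, hk0, hε]

end Pool.Agent.Results.MP_9a8698_nt.NonSmoothLower
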