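import Mathlib
import Pool.Agent.Helper46_SP.Fin

/-!
# A positive proportion of smooth integers in `(n, n + k]` for `n < k ^ (7/3 - ε)`

For `k ^ (1 + ε) ≤ n ≤ k ^ (7/3 - ε)` at most `(1 - c) k` of the integers `n + 1, …, n + k` have a
prime factor above `k`, with `c = c(ε) > 0`.
-/

set_option autoImplicit false

open Finset Filter Topology

namespace Pool.Agent.Results.MP_9a8698_nt.SmoothPositive

open Pool.Agent.Helper46_SP (ff main)

/-- the statement for the pairs with `log n / log k` in `S` -/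
def Good (S : Set ℝ) : Prop := ∃ c : ℝ, 0 < c ∧ ∃ K : ℕ, ∀ k n : ℕ, K ≤ k → 1 ≤ n →
  Real.log n / Real.log k ∈ S → (ff n k : ℝ) ≤ (1 - c) * k

lemma good_local (α : ℝ) (h1 : 1 < α) (h2 : α < 7 / 3) : ∃ U ∈ 𝓝 α, Good U := by
  obtain ⟨c, hc, δ, hδ, K, hK⟩ := main α h1 h2
  refine ⟨Set.Icc (α - δ) (α + δ), Icc_mem_nhds (by linarith) (by linarith), c, hc, max K 2, ?_⟩
  intro k n hk hn hmem
  have hk2 : 2 ≤ k := le_trans (le_max_right _ _) hk
  have hk0 : (0 : ℝ) < k := by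
    have : 0 < k := by omega
    exact_mod_cast this
  have hlk : 0 < Real.log k := Real.log_pos (by exact_mod_cast hk2)
  have hn0 : (0 : ℝ) < n := by exact_mod_cast hn
  rw [Set.mem_Icc, le_div_iff₀ hlk, div_le_iff₀ hlk] at hmem
  apply hK k n (le_trans (le_max_left _ _) hk)
  · rw [← Real.log_le_log_iff (Real.rpow_pos_of_pos hk0 _) hn0, Real.log_rpow hk0]
    exact hmem.1
  · rw [← Real.log_le_log_iff hn0 (Real.rpow_pos_of_pos hk0 _), Real.log_rpow hk0]
    exact hmem.2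

theorem result :
    ∀ ε : ℝ, 0 < ε → ∃ c : ℝ, 0 < c ∧ ∃ K : ℕ, ∀ k n : ℕ, K ≤ k →
      (k : ℝ) ^ (1 + ε) ≤ (n : ℝ) → (n : ℝ) ≤ (k : ℝ) ^ (7 / 3 - ε) →
        (((Finset.Icc 1 k).filter
          (fun i => ∃ p ∈ (n + i).primeFactors, k < p)).card : ℝ) / (k : ℝ) ≤ 1 - c := by
  intro ε hε
  have hgood : Good (Set.Icc (1 + ε) (7 / 3 - ε)) := by
    apply isCompact_Icc.induction_on (p := Good)
    · exact ⟨1, one_pos, 0, fun k n _ _ h => absurd h (Set.notMem_empty _)⟩
    · rintro s t hst ⟨c, hc, K, hK⟩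
      exact ⟨c, hc, K, fun k n hk hn hm => hK k n hk hn (hst hm)⟩
    · rintro s t ⟨c, hc, K, hK⟩ ⟨c', hc', K', hK'⟩
      refine ⟨min c c', lt_min hc hc', max K K', ?_⟩
      intro k n hk hn hm
      have hk0 : (0 : ℝ) ≤ k := Nat.cast_nonneg k
      rcases hm with hm | hm
      · refine (hK k n (le_trans (le_max_left _ _) hk) hn hm).trans ?_
        have := min_le_left c c'
        gcongr
      · refine (hK' k n (le_trans (le_max_right _ _) hk) hn hm).trans ?_
        have := min_le_right c c'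
        gcongr
    · intro α hα
      obtain ⟨U, hU, hg⟩ := good_local α (by linarith [hα.1]) (by linarith [hα.2])
      exact ⟨U, mem_nhdsWithin_of_mem_nhds hU, hg⟩
  obtain ⟨c, hc, K, hK⟩ := hgood
  refine ⟨c, hc, max K 2, ?_⟩
  intro k n hk h1 h2
  have hk2 : 2 ≤ k := le_trans (le_max_right _ _) hk
  have hk0 : (0 : ℝ) < k := by
    have : 0 < k := by omega
    exact_mod_cast this
  have hlk : 0 < Real.log k := Real.log_pos (by exact_mod_cast hk2)
  have hn0 : (0 : ℝ) < n := lt_of_lt_of_le (Real.rpow_pos_of_pos hk0 _) h1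
  have hn1 : 1 ≤ n := by
    have : 0 < n := by exact_mod_cast hn0
    omega
  rw [div_le_iff₀ hk0]
  apply hK k n (le_trans (le_max_left _ _) hk) hn1
  rw [Set.mem_Icc, le_div_iff₀ hlk, div_le_iff₀ hlk]
  rw [← Real.log_le_log_iff (Real.rpow_pos_of_pos hk0 _) hn0, Real.log_rpow hk0] at h1
  rw [← Real.log_le_log_iff hn0 (Real.rpow_pos_of_pos hk0 _), Real.log_rpow hk0] at h2
  exact ⟨h1, h2⟩

end Pool.Agent.Results.MP_9a8698_nt.SmoothPositive
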